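import Pool.Agent.T6.H28.EG.Defs

/-! Project EG, module FAM (helper61). -/

set_option autoImplicit false

namespace Pool.Agent.T6.H61.EG

open MvPolynomial H28.EG

/-- homogenisation in the variables `X 1`, `X 2` -/
noncomputable def hom (n : ℕ) (q : Polynomial ℂ) : S :=
  ∑ i ∈ Finset.range (n + 1), C (q.coeff i) * X 1 ^ i * X 2 ^ (n - i)

theorem eval_hom {n : ℕ} {q : Polynomial ℂ} (hq : q.natDegree ≤ n) (x : Fin 3 → ℂ) (hx : x 2 ≠ 0) :
    eval x (hom n q) = x 2 ^ n * q.eval (x 1 / x 2) := by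
  unfold hom
  rw [map_sum, Polynomial.eval_eq_sum_range' (Nat.lt_succ_of_le hq), Finset.mul_sum]
  refine Finset.sum_congr rfl fun i hi => ?_
  have hi' : i ≤ n := Nat.lt_succ_iff.1 (Finset.mem_range.1 hi)
  simp only [map_mul, map_pow, eval_C, eval_X]
  rw [div_pow]
  have : x 2 ^ n = x 2 ^ (n - i) * x 2 ^ i := by rw [← pow_add, Nat.sub_add_cancel hi']
  rw [this]
  field_simp

theorem ext_of_eval {A B : S} (h : ∀ x : Fin 3 → ℂ, x 2 ≠ 0 → eval x A = eval x B) : A = B := by
  have h1 : (X 2 : S) * A = X 2 * B := by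
    apply MvPolynomial.funext
    intro x
    by_cases hx : x 2 = 0
    · simp [hx]
    · simp [h x hx]
  exact mul_left_cancel₀ (X_ne_zero 2) h1

theorem hom_homog (n : ℕ) (q : Polynomial ℂ) : (hom n q).IsHomogeneous n := by
  unfold hom
  refine IsHomogeneous.sum _ _ _ fun i hi => ?_
  have hi' : i ≤ n := Nat.lt_succ_iff.1 (Finset.mem_range.1 hi)
  have h1 : (C (q.coeff i) * X 1 ^ i * X 2 ^ (n - i) : S).IsHomogeneous (0 + i * 1 + (n - i) * 1) := by
    refine ((isHomogeneous_C _ _).mul ?_).mul ?_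
    · simpa using (isHomogeneous_X ℂ (1 : Fin 3)).pow i
    · simpa using (isHomogeneous_X ℂ (2 : Fin 3)).pow (n - i)
  convert h1 using 1
  omega

theorem pderiv0_hom (n : ℕ) (q : Polynomial ℂ) : pderiv 0 (hom n q) = 0 := by
  unfold hom
  rw [map_sum]
  refine Finset.sum_eq_zero fun i _ => ?_
  simp [Derivation.leibniz, Derivation.leibniz_pow, pderiv_X_of_ne]

theorem pderiv1_hom (n : ℕ) (q : Polynomial ℂ) :
    pderiv 1 (hom (n + 1) q) = hom n (Polynomial.derivative q) := by
  unfold hom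
  rw [map_sum, Finset.sum_range_succ']
  have h0 : pderiv 1 (C (q.coeff 0) * X 1 ^ 0 * X 2 ^ (n + 1 - 0) : S) = 0 := by
    simp [Derivation.leibniz, Derivation.leibniz_pow, pderiv_X_of_ne]
  rw [h0, add_zero]
  refine Finset.sum_congr rfl fun i _ => ?_
  have e : n + 1 - (i + 1) = n - i := by omega
  rw [e, Polynomial.coeff_derivative]
  simp only [Derivation.leibniz, Derivation.leibniz_pow, pderiv_X_self, pderiv_C, smul_eq_mul,
    pderiv_X_of_ne (show (2 : Fin 3) ≠ 1 by decide), mul_zero, smul_zero, zero_add, add_zero,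
    Nat.add_sub_cancel, mul_one, nsmul_eq_mul, map_mul, map_add, map_one, map_natCast]
  push_cast
  ring

theorem pderiv2_hom (n : ℕ) (q : Polynomial ℂ) :
    pderiv 2 (hom (n + 1) q) =
      hom n (Polynomial.C ((n : ℂ) + 1) * q - Polynomial.X * Polynomial.derivative q) := by
  unfold hom
  rw [map_sum, Finset.sum_range_succ]
  have h0 : pderiv 2 (C (q.coeff (n + 1)) * X 1 ^ (n + 1) * X 2 ^ (n + 1 - (n + 1)) : S) = 0 := by
    simp [Derivation.leibniz, Derivation.leibniz_pow, pderiv_X_of_ne]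
  rw [h0, add_zero]
  refine Finset.sum_congr rfl fun i hi => ?_
  have hi' : i ≤ n := Nat.lt_succ_iff.1 (Finset.mem_range.1 hi)
  have hc : (Polynomial.C ((n : ℂ) + 1) * q - Polynomial.X * Polynomial.derivative q).coeff i =
      ((n - i : ℕ) + 1 : ℂ) * q.coeff i := by
    rw [Polynomial.coeff_sub, Polynomial.coeff_C_mul]
    rcases i with _ | i
    · simp
    · rw [Polynomial.coeff_X_mul, Polynomial.coeff_derivative, Nat.cast_sub hi']
      push_cast
      ring
  obtain ⟨j, hj⟩ : ∃ j, n - i = j := ⟨_, rfl⟩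
  have e : n + 1 - i = j + 1 := by omega
  rw [hc, e, hj]
  simp only [Derivation.leibniz, Derivation.leibniz_pow, pderiv_X_self, pderiv_C, smul_eq_mul,
    pderiv_X_of_ne (show (1 : Fin 3) ≠ 2 by decide), mul_zero, smul_zero, zero_add, add_zero,
    Nat.add_sub_cancel, mul_one, nsmul_eq_mul, map_mul, map_add, map_one, map_natCast]
  push_cast
  ring

theorem hom_prod : ∀ l : List ℂ,
    hom l.length ((l.map fun ρ => Polynomial.X - Polynomial.C ρ).prod) = (l.map L).prod ∧
      ((l.map fun ρ => Polynomial.X - Polynomial.C ρ).prod).natDegree ≤ l.length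
  | [] => by
      constructor
      · simp [hom]
      · simp
  | (ρ :: l) => by
      obtain ⟨h1, h2⟩ := hom_prod l
      have h3 : ((((ρ :: l).map fun ρ => Polynomial.X - Polynomial.C ρ)).prod).natDegree ≤
          (ρ :: l).length := by
        rw [List.map_cons, List.prod_cons, List.length_cons]
        refine Polynomial.natDegree_mul_le.trans ?_
        rw [Polynomial.natDegree_X_sub_C]
        omega
      refine ⟨?_, h3⟩
      apply ext_of_eval
      intro x hx
      rw [eval_hom h3 x hx, List.map_cons, List.prod_cons, List.map_cons, List.prod_cons, map_mul,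
        ← h1, eval_hom h2 x hx, List.length_cons, Polynomial.eval_mul]
      simp only [Polynomial.eval_sub, Polynomial.eval_X, Polynomial.eval_C, L, map_sub, map_mul,
        eval_X, eval_C]
      field_simp
      ring

/-- restriction to the line -/
noncomputable def sg (ρ : ℂ) : S →ₐ[ℂ] S := aeval ![X 0, C ρ * X 2, X 2]

theorem sg0 (ρ : ℂ) : sg ρ (X 0) = X 0 := by simp [sg]
theorem sg1 (ρ : ℂ) : sg ρ (X 1) = C ρ * X 2 := by simp [sg]
theorem sg2 (ρ : ℂ) : sg ρ (X 2) = X 2 := by simp [sg]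

theorem sg_spec (ρ : ℂ) (H : S) : ∃ A, H = sg ρ H + L ρ * A := by
  induction H using MvPolynomial.induction_on with
  | C a => exact ⟨0, by simp [sg]⟩
  | add p q hp hq =>
    obtain ⟨A, hA⟩ := hp
    obtain ⟨B, hB⟩ := hq
    refine ⟨A + B, ?_⟩
    rw [map_add]
    linear_combination hA + hB
  | mul_X p i hp =>
    obtain ⟨A, hA⟩ := hp
    have hi : ∃ B, (X i : S) = sg ρ (X i) + L ρ * B := by
      fin_cases i
      · exact ⟨0, by simp [sg]⟩
      · refine ⟨1, ?_⟩
        simp [sg, L]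
      · exact ⟨0, by simp [sg]⟩
    obtain ⟨B, hB⟩ := hi
    refine ⟨A * X i + sg ρ p * B, ?_⟩
    rw [map_mul]
    linear_combination (X i) * hA + (sg ρ p) * hB

theorem ord_of {ρ : ℂ} {o : ℕ} {H W : S} (h : sg ρ H = X 2 ^ o * W) (hW : eval ![1, 0, 0] W ≠ 0) :
    OrdIs ρ o H := by
  obtain ⟨A, hA⟩ := sg_spec ρ H
  refine ⟨W, A, ?_, hW⟩
  rw [← h]
  exact hA

theorem sg_hom {n : ℕ} {q : Polynomial ℂ} (hq : q.natDegree ≤ n) (ρ : ℂ) :
    sg ρ (hom n q) = C (q.eval ρ) * X 2 ^ n := by
  unfold hom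
  rw [map_sum, Polynomial.eval_eq_sum_range' (Nat.lt_succ_of_le hq), map_sum, Finset.sum_mul]
  refine Finset.sum_congr rfl fun i hi => ?_
  have hi' : i ≤ n := Nat.lt_succ_iff.1 (Finset.mem_range.1 hi)
  rw [map_mul, map_mul, map_pow, map_pow, sg1, sg2]
  have : (X 2 : S) ^ n = X 2 ^ (n - i) * X 2 ^ i := by rw [← pow_add, Nat.sub_add_cancel hi']
  rw [this]
  have hC : sg ρ (C (q.coeff i)) = C (q.coeff i) := by simp [sg]
  rw [hC, map_mul, map_pow]
  ring

/-- the form -/
noncomputable def FF (a n e K k : ℕ) (p : Polynomial ℂ) : S :=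
  X 0 ^ a * hom (n + 1) p + X 2 ^ (e + 1) + (X 0 * X 1) ^ K * X 2 ^ (k + 1)

theorem FF_homog {a n e K k : ℕ} (h1 : e = a + n) (h2 : e = k + 2 * K) (p : Polynomial ℂ) :
    (FF a n e K k p).IsHomogeneous (e + 1) := by
  unfold FF
  refine (IsHomogeneous.add ?_ ?_).add ?_
  · have := ((isHomogeneous_X ℂ (0 : Fin 3)).pow a).mul (hom_homog (n + 1) p)
    convert this using 1
    omega
  · simpa using (isHomogeneous_X ℂ (2 : Fin 3)).pow (e + 1)
  · have := (((isHomogeneous_X ℂ (0 : Fin 3)).mul (isHomogeneous_X ℂ (1 : Fin 3))).pow K).mul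
      ((isHomogeneous_X ℂ (2 : Fin 3)).pow (k + 1))
    convert this using 1
    omega

theorem pd0 (a n e K k : ℕ) (p : Polynomial ℂ) : pderiv 0 (FF a n e K k p) =
    C (a : ℂ) * X 0 ^ (a - 1) * hom (n + 1) p +
      C (K : ℂ) * (X 0 * X 1) ^ (K - 1) * X 1 * X 2 ^ (k + 1) := by
  unfold FF
  simp only [map_add, Derivation.leibniz, Derivation.leibniz_pow, pderiv0_hom, smul_eq_mul,
    pderiv_X_self, nsmul_eq_mul, pderiv_X_of_ne (show (1 : Fin 3) ≠ 0 by decide),
    pderiv_X_of_ne (show (2 : Fin 3) ≠ 0 by decide), mul_zero, smul_zero, zero_add, add_zero,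
    map_natCast]
  ring

theorem pd1 (a n e K k : ℕ) (p : Polynomial ℂ) : pderiv 1 (FF a n e K k p) =
    X 0 ^ a * hom n (Polynomial.derivative p) +
      C (K : ℂ) * (X 0 * X 1) ^ (K - 1) * X 0 * X 2 ^ (k + 1) := by
  unfold FF
  simp only [map_add, Derivation.leibniz, Derivation.leibniz_pow, pderiv1_hom, smul_eq_mul,
    pderiv_X_self, nsmul_eq_mul, pderiv_X_of_ne (show (0 : Fin 3) ≠ 1 by decide),
    pderiv_X_of_ne (show (2 : Fin 3) ≠ 1 by decide), mul_zero, smul_zero, zero_add, add_zero,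
    map_natCast]
  ring

theorem pd2 (a n e K k : ℕ) (p : Polynomial ℂ) : pderiv 2 (FF a n e K k p) =
    X 0 ^ a * hom n (Polynomial.C ((n : ℂ) + 1) * p - Polynomial.X * Polynomial.derivative p) +
      C ((e : ℂ) + 1) * X 2 ^ e + C ((k : ℂ) + 1) * (X 0 * X 1) ^ K * X 2 ^ k := by
  unfold FF
  simp only [map_add, Derivation.leibniz, Derivation.leibniz_pow, pderiv2_hom, smul_eq_mul,
    pderiv_X_self, nsmul_eq_mul, pderiv_X_of_ne (show (0 : Fin 3) ≠ 2 by decide),
    pderiv_X_of_ne (show (1 : Fin 3) ≠ 2 by decide), mul_zero, smul_zero, zero_add, add_zero,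
    map_natCast, Nat.add_sub_cancel, map_one]
  push_cast
  ring

/-- the restriction of `E1` to a line -/
theorem sgE1 {a n e K k : ℕ} {p : Polynomial ℂ} (hp : p.natDegree ≤ n + 1) (ρ : ℂ) :
    sg ρ (E1 (FF a n e K k p)) =
      C ((Polynomial.C ((n : ℂ) + 1) * p - Polynomial.X * Polynomial.derivative p).eval ρ) *
        X 0 ^ (a + 1) * X 2 ^ n + C ((e : ℂ) + 1) * X 0 * X 2 ^ e +
      C (((k : ℂ) + 1) * ρ ^ K) * X 0 ^ (K + 1) * X 2 ^ (K + k) -
      C ((Polynomial.derivative p).eval ρ) * X 0 ^ a * X 2 ^ (n + 1) -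
      C ((K : ℂ) * ρ ^ (K - 1)) * X 0 ^ K * X 2 ^ (K + k + 1) := by
  have hd1 : (Polynomial.derivative p).natDegree ≤ n :=
    (Polynomial.natDegree_derivative_le p).trans (by omega)
  have hd2 : (Polynomial.C ((n : ℂ) + 1) * p - Polynomial.X * Polynomial.derivative p).natDegree
      ≤ n := by
    rw [Polynomial.natDegree_le_iff_coeff_eq_zero]
    intro N hN
    obtain ⟨M, rfl⟩ : ∃ M, N = M + 1 := ⟨N - 1, by omega⟩
    rw [Polynomial.coeff_sub, Polynomial.coeff_C_mul, Polynomial.coeff_X_mul,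
      Polynomial.coeff_derivative]
    rcases Nat.lt_or_ge M (n + 1) with h | h
    · have : M = n := by omega
      subst this
      ring
    · rw [Polynomial.coeff_eq_zero_of_natDegree_lt (by omega : p.natDegree < M + 1)]
      ring
  have hC : ∀ c : ℂ, sg ρ (C c) = C c := fun c => by simp [sg]
  unfold E1
  rw [pd1, pd2]
  obtain ⟨q2, hq2⟩ : ∃ q2, q2 = Polynomial.C ((n : ℂ) + 1) * p -
    Polynomial.X * Polynomial.derivative p := ⟨_, rfl⟩
  obtain ⟨q1, hq1⟩ : ∃ q1, q1 = Polynomial.derivative p := ⟨_, rfl⟩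
  rw [← hq2] at hd2 ⊢
  rw [← hq1] at hd1 ⊢
  simp only [map_sub, map_mul, map_add, map_pow, sg0, sg1, sg2, sg_hom hd1, sg_hom hd2]
  have e1 : sg ρ (C (e : ℂ)) = C (e : ℂ) := hC _
  have e2 : sg ρ (C (k : ℂ)) = C (k : ℂ) := hC _
  have e3 : sg ρ (C (K : ℂ)) = C (K : ℂ) := hC _
  have e4 : sg ρ (C (1 : ℂ)) = C (1 : ℂ) := hC _
  rw [e1, e2, e3, e4]
  rcases K with _ | K
  · simp
    ring
  · simp only [Nat.add_sub_cancel]
    ring

/-- the zero line -/
theorem ord0 {a n e K k : ℕ} {p : Polynomial ℂ} (hp : p.natDegree ≤ n + 1) (he : 1 ≤ e)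
    (h2 : e = k + 2 * K) (hp0 : p.eval 0 = 0) (hp1 : (Polynomial.derivative p).eval 0 = 0) :
    OrdIs 0 e (E1 (FF a n e K k p)) := by
  have h := sgE1 (a := a) (e := e) (K := K) (k := k) hp 0
  simp only [Polynomial.eval_sub, Polynomial.eval_mul, Polynomial.eval_C, Polynomial.eval_X, hp0,
    hp1, mul_zero, sub_zero, map_zero, zero_mul, zero_add] at h
  rcases K with _ | K
  · refine ord_of (W := C ((e : ℂ) + 1 + ((k : ℂ) + 1)) * X 0) ?_ ?_
    · rw [h]
      have : e = k := by omega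
      subst this
      simp
      ring
    · have : ((e : ℂ) + 1 + ((k : ℂ) + 1)) ≠ 0 := by
        have : (((e + 1 + (k + 1) : ℕ)) : ℂ) ≠ 0 := by
          exact_mod_cast (by omega : e + 1 + (k + 1) ≠ 0)
        push_cast at this
        exact this
      simpa using this
  · rcases K with _ | K
    · refine ord_of (W := C (e : ℂ) * X 0) ?_ ?_
      · rw [h]
        have : e = k + 2 := by omega
        subst this
        simp
        ring
      · have : (e : ℂ) ≠ 0 := by exact_mod_cast (by omega : e ≠ 0)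
        simpa using this
    · refine ord_of (W := C ((e : ℂ) + 1) * X 0) ?_ ?_
      · rw [h]
        simp
        ring
      · have : ((e : ℂ) + 1) ≠ 0 := by
          have : (((e + 1 : ℕ)) : ℂ) ≠ 0 := by exact_mod_cast (by omega : e + 1 ≠ 0)
          push_cast at this
          exact this
        simpa using this

/-- the line `v = y` -/
theorem ord1 {a n e K k : ℕ} {p : Polynomial ℂ} (hp : p.natDegree ≤ n + 1)
    (h2 : e = k + 2 * K) (hp0 : p.eval 1 = 0) (hp1 : (Polynomial.derivative p).eval 1 = 0) :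
    OrdIs 1 (e - K) (E1 (FF a n e K k p)) := by
  have h := sgE1 (a := a) (e := e) (K := K) (k := k) hp 1
  simp only [Polynomial.eval_sub, Polynomial.eval_mul, Polynomial.eval_C, Polynomial.eval_X, hp0,
    hp1, mul_zero, sub_zero, map_zero, zero_mul, zero_add, one_pow, mul_one] at h
  have e1 : e - K = K + k := by omega
  have e2 : e = (K + k) + K := by omega
  rw [e1]
  refine ord_of (W := C ((e : ℂ) + 1) * X 0 * X 2 ^ K + C ((k : ℂ) + 1) * X 0 ^ (K + 1) -
    C (K : ℂ) * X 0 ^ K * X 2) ?_ ?_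
  · rw [h]
    have e3 : (X 2 : S) ^ e = X 2 ^ (K + k) * X 2 ^ K := by rw [← pow_add, ← e2]
    rw [e3]
    ring
  · rcases K with _ | K
    · have : ((e : ℂ) + 1 + ((k : ℂ) + 1)) ≠ 0 := by
        have : (((e + 1 + (k + 1) : ℕ)) : ℂ) ≠ 0 := by
          exact_mod_cast (by omega : e + 1 + (k + 1) ≠ 0)
        push_cast at this
        exact this
      simpa using this
    · have : ((k : ℂ) + 1) ≠ 0 := by
        have : (((k + 1 : ℕ)) : ℂ) ≠ 0 := by exact_mod_cast (by omega : k + 1 ≠ 0)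
        push_cast at this
        exact this
      simpa using this

/-- the other lines -/
theorem ordr {a n e K k : ℕ} {p : Polynomial ℂ} {ρ : ℂ} (hp : p.natDegree ≤ n + 1)
    (h1 : e = a + n) (h2 : e = k + 2 * K) (hKa : K ≠ a) (hρ : ρ ≠ 0)
    (hpr : (Polynomial.C ((n : ℂ) + 1) * p - Polynomial.X * Polynomial.derivative p).eval ρ ≠ 0) :
    OrdIs ρ (e - max a K) (E1 (FF a n e K k p)) := by
  have h := sgE1 (a := a) (e := e) (K := K) (k := k) hp ρ
  obtain ⟨c1, hc1⟩ : ∃ c1, c1 =
    (Polynomial.C ((n : ℂ) + 1) * p - Polynomial.X * Polynomial.derivative p).eval ρ := ⟨_, rfl⟩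
  obtain ⟨c2, hc2⟩ : ∃ c2, c2 = (Polynomial.derivative p).eval ρ := ⟨_, rfl⟩
  rw [← hc1] at hpr
  rw [← hc1, ← hc2] at h
  rcases Nat.lt_or_gt_of_ne hKa with hlt | hlt
  · obtain ⟨j, hj⟩ : ∃ j, a = K + j + 1 := ⟨a - K - 1, by omega⟩
    have e0 : e - max a K = n := by rw [max_eq_left hlt.le]; omega
    rw [e0]
    refine ord_of (W := C c1 * X 0 ^ (a + 1) + C ((e : ℂ) + 1) * X 0 * X 2 ^ a +
      C (((k : ℂ) + 1) * ρ ^ K) * X 0 ^ (K + 1) * X 2 ^ (j + 1) - C c2 * X 0 ^ a * X 2 -
      C ((K : ℂ) * ρ ^ (K - 1)) * X 0 ^ K * X 2 ^ (j + 2)) ?_ ?_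
    · rw [h]
      have e1 : (X 2 : S) ^ e = X 2 ^ n * X 2 ^ a := by rw [← pow_add]; congr 1; omega
      have e2 : (X 2 : S) ^ (K + k) = X 2 ^ n * X 2 ^ (j + 1) := by
        rw [← pow_add]; congr 1; omega
      have e3 : (X 2 : S) ^ (K + k + 1) = X 2 ^ n * X 2 ^ (j + 2) := by
        rw [← pow_add]; congr 1; omega
      rw [e1, e2, e3]
      ring
    · have ha : a ≠ 0 := by omega
      simpa [ha] using hpr
  · obtain ⟨j, hj⟩ : ∃ j, K = a + j + 1 := ⟨K - a - 1, by omega⟩
    have e0 : e - max a K = K + k := by rw [max_eq_right hlt.le]; omega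
    rw [e0]
    refine ord_of (W := C c1 * X 0 ^ (a + 1) * X 2 ^ (j + 1) + C ((e : ℂ) + 1) * X 0 * X 2 ^ K +
      C (((k : ℂ) + 1) * ρ ^ K) * X 0 ^ (K + 1) - C c2 * X 0 ^ a * X 2 ^ (j + 2) -
      C ((K : ℂ) * ρ ^ (K - 1)) * X 0 ^ K * X 2) ?_ ?_
    · rw [h]
      have e1 : (X 2 : S) ^ e = X 2 ^ (K + k) * X 2 ^ K := by rw [← pow_add]; congr 1; omega
      have e2 : (X 2 : S) ^ n = X 2 ^ (K + k) * X 2 ^ (j + 1) := by
        rw [← pow_add]; congr 1; omega
      have e3 : (X 2 : S) ^ (n + 1) = X 2 ^ (K + k) * X 2 ^ (j + 2) := by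
        rw [← pow_add]; congr 1; omega
      rw [e1, e2, e3]
      ring
    · have hK : K ≠ 0 := by omega
      have hk : ((k : ℂ) + 1) ≠ 0 := by
        have : (((k + 1 : ℕ)) : ℂ) ≠ 0 := by exact_mod_cast (by omega : k + 1 ≠ 0)
        push_cast at this
        exact this
      simpa [hK] using And.intro hk hρ

/-- `X^t + 1` -/
noncomputable def hh (t : ℕ) : Polynomial ℂ := Polynomial.X ^ t + 1

/-- the univariate polynomial -/
noncomputable def pp (b r t : ℕ) : Polynomial ℂ :=
  Polynomial.X ^ b * (Polynomial.X - 1) ^ (r + 1) * hh t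

/-- the remaining factor -/
noncomputable def RR (a b r t : ℕ) : Polynomial ℂ :=
  Polynomial.C ((a : ℂ) - b) * ((Polynomial.X - 1) * hh t) -
    Polynomial.C ((r : ℂ) + 1) * (Polynomial.X * hh t) -
    (Polynomial.X - 1) * (Polynomial.C (t : ℂ) * Polynomial.X ^ t)

theorem X_der_pow (t : ℕ) : Polynomial.X * Polynomial.derivative (Polynomial.X ^ t : Polynomial ℂ) =
    Polynomial.C (t : ℂ) * Polynomial.X ^ t := by
  rcases t with _ | t
  · simp
  · rw [Polynomial.derivative_X_pow, Nat.add_sub_cancel]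
    ring

theorem X_der_hh (t : ℕ) : Polynomial.X * Polynomial.derivative (hh t) =
    Polynomial.C (t : ℂ) * Polynomial.X ^ t := by
  unfold hh
  rw [Polynomial.derivative_add, Polynomial.derivative_one, add_zero, X_der_pow]

theorem key_id (a b r t : ℕ) :
    Polynomial.C (a : ℂ) * pp b r t - Polynomial.X * Polynomial.derivative (pp b r t) =
      Polynomial.X ^ b * (Polynomial.X - 1) ^ r * RR a b r t := by
  have h1 : Polynomial.derivative ((Polynomial.X - 1 : Polynomial ℂ) ^ (r + 1)) =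
      Polynomial.C ((r : ℂ) + 1) * (Polynomial.X - 1) ^ r := by
    rw [Polynomial.derivative_pow, Nat.add_sub_cancel, Polynomial.derivative_sub,
      Polynomial.derivative_X, Polynomial.derivative_one]
    push_cast
    ring
  unfold pp RR
  rw [Polynomial.derivative_mul, Polynomial.derivative_mul, h1]
  have h2 := X_der_pow b
  have h3 := X_der_hh t
  rw [map_sub]
  linear_combination (-((Polynomial.X - 1) ^ (r + 1) * hh t)) * h2 -
    (Polynomial.X ^ b * (Polynomial.X - 1) ^ (r + 1)) * h3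

theorem pp_deg (b r t : ℕ) : (pp b r t).natDegree ≤ b + (r + 1) + t := by
  unfold pp hh
  refine Polynomial.natDegree_mul_le.trans (Nat.add_le_add (Polynomial.natDegree_mul_le.trans
    (Nat.add_le_add ?_ ?_)) ?_)
  · exact Polynomial.natDegree_X_pow_le b
  · refine Polynomial.natDegree_pow_le.trans ?_
    have : (Polynomial.X - 1 : Polynomial ℂ).natDegree ≤ 1 := by
      rw [← Polynomial.C_1, Polynomial.natDegree_X_sub_C]
    calc (r + 1) * (Polynomial.X - 1 : Polynomial ℂ).natDegree ≤ (r + 1) * 1 :=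
          Nat.mul_le_mul_left _ this
      _ = r + 1 := mul_one _
  · refine (Polynomial.natDegree_add_le _ _).trans ?_
    simp

theorem RR_eq (a b r t : ℕ) : RR a b r t =
    Polynomial.C ((a : ℂ) - b - (r + 1) - t) * Polynomial.X ^ (t + 1) +
    Polynomial.C ((t : ℂ) - (a - b)) * Polynomial.X ^ t +
    Polynomial.C ((a : ℂ) - b - (r + 1)) * Polynomial.X + Polynomial.C ((b : ℂ) - a) := by
  unfold RR hh
  simp only [map_sub, map_add, Polynomial.C_1]
  ring

theorem RR_deg {a b r t : ℕ} (h : a ≠ b + (r + 1) + t) :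
    (RR a b r t).natDegree = t + 1 ∧ RR a b r t ≠ 0 := by
  have hα : ((a : ℂ) - b - (r + 1) - t) ≠ 0 := by
    intro h0
    apply h
    have : (a : ℂ) = ((b + (r + 1) + t : ℕ) : ℂ) := by
      push_cast
      linear_combination h0
    exact_mod_cast this
  have hc : (RR a b r t).coeff (t + 1) ≠ 0 := by
    rw [RR_eq]
    simp only [Polynomial.coeff_add, Polynomial.coeff_C_mul, Polynomial.coeff_X_pow,
      Polynomial.coeff_X, Polynomial.coeff_C]
    rcases t with _ | t
    · simp only [zero_add, if_true, mul_one, one_ne_zero, if_false, mul_zero, add_zero,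
        Nat.cast_zero, sub_zero] at hα ⊢
      intro h0
      apply hα
      linear_combination h0 / 2
    · simpa using hα
  have hle : (RR a b r t).natDegree ≤ t + 1 := by
    rw [RR_eq]
    compute_degree
  refine ⟨le_antisymm hle (Polynomial.le_natDegree_of_ne_zero hc), fun h0 => hc ?_⟩
  rw [h0, Polynomial.coeff_zero]

theorem hh_eval (t : ℕ) (x : ℂ) : (hh t).eval x = x ^ t + 1 := by
  simp [hh]

theorem root_facts {a b r t : ℕ} (hab : b ≠ a) {ρ : ℂ} (h : (RR a b r t).eval ρ = 0) :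
    ρ ≠ 0 ∧ ρ ≠ 1 ∧ (hh t).eval ρ ≠ 0 := by
  have hab' : ((a : ℂ) - b) ≠ 0 := by
    rw [sub_ne_zero]
    exact_mod_cast hab.symm
  have hr : ((r : ℂ) + 1) ≠ 0 := by exact_mod_cast (by omega : r + 1 ≠ 0)
  unfold RR at h
  simp only [Polynomial.eval_sub, Polynomial.eval_mul, Polynomial.eval_C, Polynomial.eval_X,
    Polynomial.eval_one, Polynomial.eval_pow, hh_eval] at h
  have h0 : ρ ≠ 0 := by
    rintro rfl
    rcases t with _ | t
    · apply hab'
      simp at h
      exact h
    · apply hab'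
      simp at h
      linear_combination -h
  have h1 : ρ ≠ 1 := by
    rintro rfl
    apply hr
    simp at h
    exact h
  refine ⟨h0, h1, fun h2 => ?_⟩
  rw [hh_eval] at h2
  rw [h2] at h
  have h3 : (ρ - 1) * ((t : ℂ) * ρ ^ t) = 0 := by linear_combination -h
  rcases mul_eq_zero.1 h3 with h4 | h4
  · exact h1 (sub_eq_zero.1 h4)
  · rcases mul_eq_zero.1 h4 with h5 | h5
    · have : t = 0 := by exact_mod_cast h5
      subst this
      norm_num at h2
    · exact (pow_ne_zero t h0) h5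

theorem pp_zero {b r t : ℕ} (hb : 2 ≤ b) :
    (pp b r t).eval 0 = 0 ∧ (Polynomial.derivative (pp b r t)).eval 0 = 0 := by
  obtain ⟨c, rfl⟩ : ∃ c, b = c + 2 := ⟨b - 2, by omega⟩
  have e : pp (c + 2) r t = Polynomial.X ^ 2 *
      (Polynomial.X ^ c * (Polynomial.X - 1) ^ (r + 1) * hh t) := by
    unfold pp; ring
  rw [e]
  constructor
  · simp
  · rw [Polynomial.derivative_mul]
    simp

theorem pp_one {b r t : ℕ} (hr : 1 ≤ r) :
    (pp b r t).eval 1 = 0 ∧ (Polynomial.derivative (pp b r t)).eval 1 = 0 := by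
  obtain ⟨c, rfl⟩ : ∃ c, r = c + 1 := ⟨r - 1, by omega⟩
  have e : pp b (c + 1) t = (Polynomial.X - 1) ^ 2 *
      (Polynomial.X ^ b * (Polynomial.X - 1) ^ c * hh t) := by
    unfold pp; ring
  rw [e]
  constructor
  · simp
  · rw [Polynomial.derivative_mul]
    simp [Polynomial.derivative_pow]

theorem pp_one' (b r t : ℕ) : (pp b r t).eval 1 = 0 := by
  unfold pp
  simp

/-- **FAM** -/
theorem fam (hK : StmKEY) : StmFAM := by
  intro e m he hF
  obtain ⟨g, a, b, r, s, K, hag, ha, hs, hg, hb1, hba, hag', hKa, hKe, hm⟩ := hF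
  obtain ⟨t, rfl⟩ : ∃ t, s = t + 1 := ⟨s - 1, by omega⟩
  obtain ⟨n, rfl⟩ : ∃ n, g = n + 1 := ⟨g - 1, by omega⟩
  obtain ⟨k, hk⟩ : ∃ k, e = k + 2 * K := ⟨e - 2 * K, by omega⟩
  have hen : e = a + n := by omega
  have hn : n + 1 = b + (r + 1) + t := by omega
  obtain ⟨p, hp⟩ : ∃ p, p = pp b r t := ⟨_, rfl⟩
  have hpd : p.natDegree ≤ n + 1 := by rw [hp, hn]; exact pp_deg b r t
  obtain ⟨F, hF⟩ : ∃ F, F = FF a n e K k p := ⟨_, rfl⟩
  obtain ⟨hRd, hR0⟩ := RR_deg (a := a) (b := b) (r := r) (t := t) (by omega)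
  obtain ⟨R, hR⟩ : ∃ R, R = RR a b r t := ⟨_, rfl⟩
  rw [← hR] at hRd hR0
  have hsp : R.Splits := IsAlgClosed.splits R
  have hcard : R.roots.card = t + 1 := by
    rw [← hRd]
    exact hsp.natDegree_eq_card_roots.symm
  obtain ⟨c, hc⟩ : ∃ c, c = R.leadingCoeff := ⟨_, rfl⟩
  have hc0 : c ≠ 0 := by rw [hc]; exact Polynomial.leadingCoeff_ne_zero.2 hR0
  have hRprod : R = Polynomial.C c * (R.roots.toList.map fun ρ => Polynomial.X - Polynomial.C ρ).prod := by
    have h1 := hsp.eq_prod_roots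
    rw [← Multiset.prod_coe, ← Multiset.map_coe, Multiset.coe_toList, hc]
    exact h1
  set rs : List ℂ := List.replicate b 0 ++ List.replicate r 1 ++ R.roots.toList with hrs
  have hlen : rs.length = n + 1 := by
    rw [hrs, List.length_append, List.length_append, List.length_replicate, List.length_replicate,
      Multiset.length_toList, hcard]
    omega
  have hprod : Polynomial.C (a : ℂ) * p - Polynomial.X * Polynomial.derivative p =
      Polynomial.C c * (rs.map fun ρ => Polynomial.X - Polynomial.C ρ).prod := by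
    rw [hp, key_id, ← hR, hrs, List.map_append, List.map_append, List.prod_append,
      List.prod_append, List.map_replicate, List.map_replicate, List.prod_replicate,
      List.prod_replicate, Polynomial.C_0, Polynomial.C_1, sub_zero]
    conv_lhs => rw [hRprod]
    ring
  obtain ⟨hom1, hom2⟩ := hom_prod rs
  rw [hlen] at hom1 hom2
  have hd1 : (Polynomial.derivative p).natDegree ≤ n :=
    (Polynomial.natDegree_derivative_le p).trans (by omega)
  have hE0 : E0 F = C c * X 0 ^ a * (rs.map L).prod := by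
    rw [← hom1, hF]
    unfold E0
    rw [pd0, pd1]
    apply ext_of_eval
    intro x hx
    simp only [map_sub, map_mul, map_add, map_pow, eval_X, eval_C, eval_hom hpd x hx,
      eval_hom hd1 x hx, eval_hom hom2 x hx]
    have h1 := congrArg (Polynomial.eval (x 1 / x 2)) hprod
    simp only [Polynomial.eval_sub, Polynomial.eval_mul, Polynomial.eval_C,
      Polynomial.eval_X] at h1
    have h2 : x 0 ^ a = x 0 * x 0 ^ (a - 1) := by
      rw [← pow_succ']
      congr 1
      omega
    have h3 : x 1 = x 1 / x 2 * x 2 := by field_simp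
    obtain ⟨τ, hτ⟩ : ∃ τ, τ = x 1 / x 2 := ⟨_, rfl⟩
    rw [← hτ] at h1 h3 ⊢
    rw [h3, h2, pow_succ]
    linear_combination (x 0 * x 0 ^ (a - 1) * x 2 ^ n * x 2) * h1
  have hmem : ∀ ρ ∈ rs, (ρ = 0 ∧ 2 ≤ b) ∨ (ρ = 1 ∧ 1 ≤ r) ∨
      (ρ ≠ 0 ∧ ρ ≠ 1 ∧ R.eval ρ = 0) := by
    intro ρ hρ
    rw [hrs, List.mem_append, List.mem_append, List.mem_replicate, List.mem_replicate,
      Multiset.mem_toList] at hρ
    rcases hρ with (⟨h1, h2⟩ | ⟨h1, h2⟩) | h1
    · left; exact ⟨h2, by omega⟩
    · right; left; exact ⟨h2, by omega⟩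
    · right; right
      have h2 := (Polynomial.mem_roots hR0).1 h1
      have h3 : R.eval ρ = 0 := h2
      rw [hR] at h3
      obtain ⟨h4, h5, -⟩ := root_facts hba h3
      exact ⟨h4, h5, h2⟩
  have hord : ∀ ρ ∈ rs, OrdIs ρ ((fun ρ : ℂ => if ρ = 0 then e else if ρ = 1 then e - K
      else e - max a K) ρ) (E1 F) := by
    intro ρ hρ
    rw [hF]
    rcases hmem ρ hρ with ⟨h1, h2⟩ | ⟨h1, h2⟩ | ⟨h1, h2, h3⟩
    · rw [h1]
      simp only [if_true]
      obtain ⟨h3, h4⟩ := pp_zero (r := r) (t := t) h2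
      rw [← hp] at h3 h4
      exact ord0 hpd (by omega) hk h3 h4
    · rw [h1]
      simp only [one_ne_zero, if_false, if_true]
      obtain ⟨h3, h4⟩ := pp_one (b := b) (t := t) h2
      rw [← hp] at h3 h4
      exact ord1 hpd hk h3 h4
    · simp only [h1, h2, if_false]
      refine ordr hpd hen hk hKa h1 ?_
      have h4 : (a : ℂ) * p.eval ρ - ρ * (Polynomial.derivative p).eval ρ = 0 := by
        have h5 := congrArg (Polynomial.eval ρ) (key_id a b r t)
        rw [← hp, ← hR] at h5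
        simp only [Polynomial.eval_sub, Polynomial.eval_mul, Polynomial.eval_C,
          Polynomial.eval_X, h3, mul_zero] at h5
        exact h5
      simp only [Polynomial.eval_sub, Polynomial.eval_mul, Polynomial.eval_C, Polynomial.eval_X]
      have h6 : ((n : ℂ) + 1) * p.eval ρ - ρ * (Polynomial.derivative p).eval ρ =
          ((n : ℂ) + 1 - a) * p.eval ρ := by linear_combination h4
      rw [h6]
      refine mul_ne_zero ?_ ?_
      · rw [sub_ne_zero]
        exact_mod_cast hag'.symm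
      · rw [hR] at h3
        obtain ⟨-, -, h7⟩ := root_facts hba h3
        rw [hp]
        unfold pp
        simp only [Polynomial.eval_mul, Polynomial.eval_pow, Polynomial.eval_sub,
          Polynomial.eval_X, Polynomial.eval_one]
        exact mul_ne_zero (mul_ne_zero (pow_ne_zero _ h1) (pow_ne_zero _ (sub_ne_zero.2 h2))) h7
  have hX : ¬ X 0 ∣ E2 F := by
    rintro ⟨Q, hQ⟩
    have h1 := congrArg (eval ![0, 1, 1]) hQ
    rw [hF] at h1
    unfold E2 at h1
    rw [pd0, pd2] at h1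
    have h2 : eval ![0, 1, 1] (hom (n + 1) p) = 0 := by
      rw [eval_hom hpd _ (by simp)]
      have := pp_one' b r t
      rw [← hp] at this
      simp [this]
    simp only [map_sub, map_mul, map_add, map_pow, eval_X, eval_C, h2] at h1
    have ha0 : a ≠ 0 := by omega
    rcases K with _ | K
    · simp [ha0] at h1
      have : (((e + 1 + (k + 1) : ℕ)) : ℂ) ≠ 0 := by
        exact_mod_cast (by omega : e + 1 + (k + 1) ≠ 0)
      apply this
      push_cast
      exact h1
    · rcases K with _ | K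
      · simp [ha0] at h1
        omega
      · simp [ha0] at h1
        have : (((e + 1 : ℕ)) : ℂ) ≠ 0 := by exact_mod_cast (by omega : e + 1 ≠ 0)
        apply this
        push_cast
        exact h1
  have hfin := hK (e + 1) F c a rs (fun ρ : ℂ => if ρ = 0 then e else if ρ = 1 then e - K
      else e - max a K) (by rw [hF]; exact FF_homog hen hk p) hc0 hE0 hord hX
  have hsum : (rs.map (fun ρ : ℂ => if ρ = 0 then e else if ρ = 1 then e - K
      else e - max a K)).sum = m := by
    have h1 : (R.roots.toList.map (fun ρ : ℂ => if ρ = 0 then e else if ρ = 1 then e - K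
      else e - max a K)) = List.replicate (t + 1) (e - max a K) := by
      rw [List.eq_replicate_iff]
      refine ⟨by rw [List.length_map, Multiset.length_toList, hcard], ?_⟩
      intro y hy
      obtain ⟨ρ, hρ, rfl⟩ := List.mem_map.1 hy
      rw [Multiset.mem_toList] at hρ
      have h3 : R.eval ρ = 0 := (Polynomial.mem_roots hR0).1 hρ
      rw [hR] at h3
      obtain ⟨h4, h5, -⟩ := root_facts hba h3
      simp [h4, h5]
    rw [hrs, List.map_append, List.map_append, List.sum_append, List.sum_append, h1,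
      List.map_replicate, List.map_replicate, List.sum_replicate, List.sum_replicate,
      List.sum_replicate]
    simp only [if_true, one_ne_zero, if_false, smul_eq_mul]
    have hmax : max a K ≤ e := by
      rw [max_le_iff]
      constructor <;> omega
    have hKe' : K ≤ e := by omega
    obtain ⟨x, hx⟩ := Nat.exists_eq_add_of_le hmax
    obtain ⟨y, hy⟩ := Nat.exists_eq_add_of_le hKe'
    have e1 : e - max a K = x := by omega
    have e2 : e - K = y := by omega
    rw [e1, e2]
    obtain ⟨M, hM⟩ : ∃ M, M = max a K := ⟨_, rfl⟩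
    rw [← hM] at hx hm
    have h5 : m + r * K + (t + 1) * M = b * e + r * e + (t + 1) * e := by
      rw [hm, ← hg]; ring
    have h6 : (t + 1) * e = (t + 1) * M + (t + 1) * x := by
      rw [← Nat.mul_add, ← hx]
    have h7 : r * e = r * K + r * y := by
      rw [← Nat.mul_add, ← hy]
    omega
  rw [hsum] at hfin
  exact hfin

end Pool.Agent.T6.H61.EG
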