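import Pool.Agent.T6.H61.EG.FAM
import Pool.Agent.T6.H28.EG.Defs4

/-! Project EG, module F88 (helper61): forms of degree 8 with components of degree 18 and 19. -/

set_option autoImplicit false

namespace Pool.Agent.T6.H61.EG

open MvPolynomial H28.EG

theorem sgC (ρ a : ℂ) : sg ρ (C a) = C a := by simp [sg]

namespace A18

/-- the form -/
noncomputable def F : S := 4 * (X 0 ^ 4 * (X 1 ^ 3 * X 2)) - 17 * (X 0 ^ 4 * (X 1 ^ 2 * X 2 ^ 2)) +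
  22 * (X 0 ^ 4 * (X 1 * X 2 ^ 3)) - 9 * (X 0 ^ 4 * X 2 ^ 4) + X 2 ^ 8

theorem F_hom : F.IsHomogeneous 8 := by
  unfold F
  have hX : ∀ i : Fin 3, (X i : S).IsHomogeneous 1 := fun i => isHomogeneous_X ℂ i
  have hn : ∀ (m : ℕ) [m.AtLeastTwo] (p : S), p.IsHomogeneous 8 →
      ((OfNat.ofNat m : S) * p).IsHomogeneous 8 := by
    intro m _ p hp
    have : (OfNat.ofNat m : S) = C (OfNat.ofNat m) := (map_ofNat C m).symm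
    rw [this]
    exact hp.C_mul _
  refine ((((hn 4 _ ?_).sub (hn 17 _ ?_)).add (hn 22 _ ?_)).sub (hn 9 _ ?_)).add ((hX 2).pow 8)
  · exact ((hX 0).pow 4).mul (((hX 1).pow 3).mul (hX 2))
  · exact ((hX 0).pow 4).mul (((hX 1).pow 2).mul ((hX 2).pow 2))
  · exact ((hX 0).pow 4).mul ((hX 1).mul ((hX 2).pow 3))
  · exact ((hX 0).pow 4).mul ((hX 2).pow 4)

theorem F_exp : F = C 4 * (X 0 ^ 4 * (X 1 ^ 3 * X 2)) - C 17 * (X 0 ^ 4 * (X 1 ^ 2 * X 2 ^ 2)) +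
  C 22 * (X 0 ^ 4 * (X 1 * X 2 ^ 3)) - C 9 * (X 0 ^ 4 * X 2 ^ 4) + X 2 ^ 8 := by
  unfold F
  simp only [map_ofNat]

theorem d0 : pderiv 0 F = 4 * X 0 ^ 3 * (4 * X 1 ^ 3 * X 2 - 17 * X 1 ^ 2 * X 2 ^ 2 +
    22 * X 1 * X 2 ^ 3 - 9 * X 2 ^ 4) := by
  rw [F_exp]
  simp only [map_add, map_sub, pderiv_C_mul]
  simp [pderiv_X, map_ofNat]
  ring

theorem d1 : pderiv 1 F = X 0 ^ 4 * (12 * X 1 ^ 2 * X 2 - 34 * X 1 * X 2 ^ 2 +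
    22 * X 2 ^ 3) := by
  rw [F_exp]
  simp only [map_add, map_sub, pderiv_C_mul]
  simp [pderiv_X, map_ofNat]
  ring

theorem d2 : pderiv 2 F = X 0 ^ 4 * (4 * X 1 ^ 3 - 34 * X 1 ^ 2 * X 2 +
    66 * X 1 * X 2 ^ 2 - 36 * X 2 ^ 3) + 8 * X 2 ^ 7 := by
  rw [F_exp]
  simp only [map_add, map_sub, pderiv_C_mul]
  simp [pderiv_X, map_ofNat]
  ring

theorem e0 : E0 F = C 4 * X 0 ^ 4 * (([1, 6, 3 / 2] : List ℂ).map L).prod * X 2 := by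
  unfold E0
  rw [d0, d1]
  have h32 : (2 : S) * C (3 / 2) = 3 := by
    have : (2 : S) = C 2 := (map_ofNat C 2).symm
    rw [this, ← C_mul, show (2 : ℂ) * (3 / 2) = 3 by norm_num]
    exact map_ofNat C 3
  simp only [L, List.map_cons, List.map_nil, List.prod_cons, List.prod_nil, C_1, map_ofNat]
  linear_combination (2 * X 0 ^ 4 * X 2 ^ 2 * (X 1 - X 2) * (X 1 - 6 * X 2)) * h32

theorem e1 : E1 F = X 0 ^ 5 * (4 * X 1 ^ 3 - 34 * X 1 ^ 2 * X 2 +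
    66 * X 1 * X 2 ^ 2 - 36 * X 2 ^ 3) + 8 * X 0 * X 2 ^ 7 -
    X 0 ^ 4 * X 2 * (12 * X 1 ^ 2 * X 2 - 34 * X 1 * X 2 ^ 2 + 22 * X 2 ^ 3) := by
  unfold E1
  rw [d2, d1]
  ring

theorem e2 : E2 F = X 1 * (X 0 ^ 4 * (4 * X 1 ^ 3 - 34 * X 1 ^ 2 * X 2 +
    66 * X 1 * X 2 ^ 2 - 36 * X 2 ^ 3) + 8 * X 2 ^ 7) -
    X 2 * (4 * X 0 ^ 3 * (4 * X 1 ^ 3 * X 2 - 17 * X 1 ^ 2 * X 2 ^ 2 +
    22 * X 1 * X 2 ^ 3 - 9 * X 2 ^ 4)) := by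
  unfold E2
  rw [d2, d0]

theorem phE (ρ : ℂ) : sg ρ (E1 F) = X 0 ^ 5 * X 2 ^ 3 * C (2 * (ρ - 1) * (ρ - 6) * (2 * ρ - 3)) +
    8 * X 0 * X 2 ^ 7 - X 0 ^ 4 * X 2 ^ 4 * C (12 * ρ ^ 2 - 34 * ρ + 22) := by
  rw [e1]
  simp only [map_add, map_sub, map_mul, map_pow, map_ofNat, sg0, sg1, sg2, map_one]
  ring

theorem o1 : OrdIs 1 7 (E1 F) := by
  refine ord_of (W := 8 * X 0) ?_ (by simp)
  rw [phE]
  norm_num
  ring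

theorem o6 : OrdIs 6 4 (E1 F) := by
  refine ord_of (W := -(250 * X 0 ^ 4) + 8 * X 0 * X 2 ^ 3) ?_ (by simp)
  rw [phE]
  norm_num
  simp only [map_ofNat]
  ring

theorem o32 : OrdIs (3 / 2) 4 (E1 F) := by
  refine ord_of (W := 2 * X 0 ^ 4 + 8 * X 0 * X 2 ^ 3) ?_ (by simp)
  rw [phE]
  rw [show (2 * ((3 / 2 : ℂ) - 1) * (3 / 2 - 6) * (2 * (3 / 2) - 3)) = 0 by norm_num,
    show (12 * (3 / 2 : ℂ) ^ 2 - 34 * (3 / 2) + 22) = -2 by norm_num]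
  simp only [map_neg, map_zero, map_ofNat]
  ring

theorem oy : OrdY 3 (E1 F) := by
  refine ⟨4 * X 0 ^ 5, X 0 ^ 5 * (- 34 * X 1 ^ 2 +
    66 * X 1 * X 2 - 36 * X 2 ^ 2) + 8 * X 0 * X 2 ^ 6 -
    X 0 ^ 4 * (12 * X 1 ^ 2 * X 2 - 34 * X 1 * X 2 ^ 2 + 22 * X 2 ^ 3), ?_, by simp⟩
  rw [e1]
  ring

theorem ndvd : ¬ (X 0 : S) ∣ E2 F := by
  rintro ⟨A, hA⟩
  have h := congrArg (eval ![(0 : ℂ), 1, 1]) hA
  rw [e2] at h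
  simp at h

theorem good (h : StmKY2) : Good 8 18 := by
  have key := h 8 F 4 4 [1, 6, 3 / 2]
    (fun ρ => if ρ = 1 then 7 else 4) 3 F_hom (by norm_num) e0 ?_ oy ndvd
  · have hs : (([1, 6, 3 / 2] : List ℂ).map (fun ρ => if ρ = 1 then 7 else 4)).sum + 3 = 18 := by
      norm_num
    rw [hs] at key
    exact key
  · intro ρ hρ
    simp only [List.mem_cons, List.not_mem_nil, or_false] at hρ
    rcases hρ with rfl | rfl | rfl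
    · simpa using o1
    · have h1 : (if (6 : ℂ) = 1 then 7 else 4) = 4 := by norm_num
      rw [h1]
      exact o6
    · have h1 : (if (3 / 2 : ℂ) = 1 then 7 else 4) = 4 := by norm_num
      rw [h1]
      exact o32

end A18

namespace A19

/-- the form -/
noncomputable def F : S := X 0 ^ 4 * (X 1 ^ 3 * X 2) - 3 * (X 0 ^ 4 * (X 1 ^ 2 * X 2 ^ 2)) +
  3 * (X 0 ^ 4 * (X 1 * X 2 ^ 3)) - X 0 ^ 4 * X 2 ^ 4 + X 2 ^ 8 + X 0 * X 1 * X 2 ^ 6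

theorem F_hom : F.IsHomogeneous 8 := by
  unfold F
  have hX : ∀ i : Fin 3, (X i : S).IsHomogeneous 1 := fun i => isHomogeneous_X ℂ i
  have hn : ∀ (m : ℕ) [m.AtLeastTwo] (p : S), p.IsHomogeneous 8 →
      ((OfNat.ofNat m : S) * p).IsHomogeneous 8 := by
    intro m _ p hp
    have : (OfNat.ofNat m : S) = C (OfNat.ofNat m) := (map_ofNat C m).symm
    rw [this]
    exact hp.C_mul _
  refine (((((?_ : IsHomogeneous _ 8).sub (hn 3 _ ?_)).add (hn 3 _ ?_)).sub ?_).add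
    ((hX 2).pow 8)).add (((hX 0).mul (hX 1)).mul ((hX 2).pow 6))
  · exact ((hX 0).pow 4).mul (((hX 1).pow 3).mul (hX 2))
  · exact ((hX 0).pow 4).mul (((hX 1).pow 2).mul ((hX 2).pow 2))
  · exact ((hX 0).pow 4).mul ((hX 1).mul ((hX 2).pow 3))
  · exact ((hX 0).pow 4).mul ((hX 2).pow 4)

theorem F_exp : F = X 0 ^ 4 * (X 1 ^ 3 * X 2) - C 3 * (X 0 ^ 4 * (X 1 ^ 2 * X 2 ^ 2)) +
  C 3 * (X 0 ^ 4 * (X 1 * X 2 ^ 3)) - X 0 ^ 4 * X 2 ^ 4 + X 2 ^ 8 + X 0 * X 1 * X 2 ^ 6 := by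
  unfold F
  simp only [map_ofNat]

theorem d0 : pderiv 0 F = 4 * X 0 ^ 3 * (X 1 ^ 3 * X 2 - 3 * X 1 ^ 2 * X 2 ^ 2 +
    3 * X 1 * X 2 ^ 3 - X 2 ^ 4) + X 1 * X 2 ^ 6 := by
  rw [F_exp]
  simp only [map_add, map_sub, pderiv_C_mul]
  simp [pderiv_X, map_ofNat]
  ring

theorem d1 : pderiv 1 F = X 0 ^ 4 * (3 * X 1 ^ 2 * X 2 - 6 * X 1 * X 2 ^ 2 +
    3 * X 2 ^ 3) + X 0 * X 2 ^ 6 := by
  rw [F_exp]
  simp only [map_add, map_sub, pderiv_C_mul]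
  simp [pderiv_X, map_ofNat]
  ring

theorem d2 : pderiv 2 F = X 0 ^ 4 * (X 1 ^ 3 - 6 * X 1 ^ 2 * X 2 +
    9 * X 1 * X 2 ^ 2 - 4 * X 2 ^ 3) + 8 * X 2 ^ 7 + 6 * X 0 * X 1 * X 2 ^ 5 := by
  rw [F_exp]
  simp only [map_add, map_sub, pderiv_C_mul]
  simp [pderiv_X, map_ofNat]
  ring

theorem e0 : E0 F = C 1 * X 0 ^ 4 * (([1, 1, 4] : List ℂ).map L).prod * X 2 := by
  unfold E0
  rw [d0, d1]
  simp only [L, List.map_cons, List.map_nil, List.prod_cons, List.prod_nil, C_1, map_ofNat]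
  ring

theorem e1 : E1 F = X 0 ^ 5 * (X 1 ^ 3 - 6 * X 1 ^ 2 * X 2 +
    9 * X 1 * X 2 ^ 2 - 4 * X 2 ^ 3) + 7 * X 0 * X 2 ^ 7 + 6 * X 0 ^ 2 * X 1 * X 2 ^ 5 -
    X 0 ^ 4 * X 2 * (3 * X 1 ^ 2 * X 2 - 6 * X 1 * X 2 ^ 2 + 3 * X 2 ^ 3) := by
  unfold E1
  rw [d2, d1]
  ring

theorem e2 : E2 F = X 1 * (X 0 ^ 4 * (X 1 ^ 3 - 6 * X 1 ^ 2 * X 2 +
    9 * X 1 * X 2 ^ 2 - 4 * X 2 ^ 3) + 8 * X 2 ^ 7 + 6 * X 0 * X 1 * X 2 ^ 5) -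
    X 2 * (4 * X 0 ^ 3 * (X 1 ^ 3 * X 2 - 3 * X 1 ^ 2 * X 2 ^ 2 +
    3 * X 1 * X 2 ^ 3 - X 2 ^ 4) + X 1 * X 2 ^ 6) := by
  unfold E2
  rw [d2, d0]

theorem phE (ρ : ℂ) : sg ρ (E1 F) = X 0 ^ 5 * X 2 ^ 3 * C ((ρ - 1) ^ 2 * (ρ - 4)) +
    7 * X 0 * X 2 ^ 7 + C (6 * ρ) * X 0 ^ 2 * X 2 ^ 6 - X 0 ^ 4 * X 2 ^ 4 * C (3 * (ρ - 1) ^ 2) := by
  rw [e1]
  simp only [map_add, map_sub, map_mul, map_pow, map_ofNat, sg0, sg1, sg2, map_one]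
  ring

theorem o1 : OrdIs 1 6 (E1 F) := by
  refine ord_of (W := 7 * X 0 * X 2 + 6 * X 0 ^ 2) ?_ (by simp)
  rw [phE]
  norm_num
  simp only [map_ofNat]
  ring

theorem o4 : OrdIs 4 4 (E1 F) := by
  refine ord_of (W := -(27 * X 0 ^ 4) + 7 * X 0 * X 2 ^ 3 + 24 * X 0 ^ 2 * X 2 ^ 2) ?_ (by simp)
  rw [phE]
  norm_num
  simp only [map_ofNat]
  ring

theorem oy : OrdY 3 (E1 F) := by
  refine ⟨X 0 ^ 5, X 0 ^ 5 * (- 6 * X 1 ^ 2 +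
    9 * X 1 * X 2 - 4 * X 2 ^ 2) + 7 * X 0 * X 2 ^ 6 + 6 * X 0 ^ 2 * X 1 * X 2 ^ 4 -
    X 0 ^ 4 * (3 * X 1 ^ 2 * X 2 - 6 * X 1 * X 2 ^ 2 + 3 * X 2 ^ 3), ?_, by simp⟩
  rw [e1]
  ring

theorem ndvd : ¬ (X 0 : S) ∣ E2 F := by
  rintro ⟨A, hA⟩
  have h := congrArg (eval ![(0 : ℂ), 1, 1]) hA
  rw [e2] at h
  simp at h
  norm_num at h

theorem good (h : StmKY2) : Good 8 19 := by
  have key := h 8 F 1 4 [1, 1, 4]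
    (fun ρ => if ρ = 1 then 6 else 4) 3 F_hom (by norm_num) e0 ?_ oy ndvd
  · have hs : (([1, 1, 4] : List ℂ).map (fun ρ => if ρ = 1 then 6 else 4)).sum + 3 = 19 := by
      norm_num
    rw [hs] at key
    exact key
  · intro ρ hρ
    simp only [List.mem_cons, List.not_mem_nil, or_false] at hρ
    rcases hρ with rfl | rfl | rfl
    · simpa using o1
    · simpa using o1
    · have h1 : (if (4 : ℂ) = 1 then 6 else 4) = 4 := by norm_num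
      rw [h1]
      exact o4

end A19

/-- **F88** -/
theorem f88 (h : StmKY2) : StmF88 := ⟨A18.good h, A19.good h⟩

end Pool.Agent.T6.H61.EG
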