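import Pool.Agent.T6.H61.EG.FAM
import Pool.Agent.T6.H28.EG.Defs3

/-! Project EG, module FAB (helper61): the family with a simple line `v = 0`. -/

set_option autoImplicit false

namespace Pool.Agent.T6.H61.EG

open MvPolynomial H28.EG

/-- the simple zero line -/
theorem ord0b {a n e K k : ℕ} {p : Polynomial ℂ} (hp : p.natDegree ≤ n + 1) (h1 : e = a + n)
    (ha : 2 ≤ a) (h2 : e = k + 2 * K) (hp0 : p.eval 0 = 0)
    (hp1 : (Polynomial.derivative p).eval 0 ≠ 0) :
    OrdIs 0 (n + 1) (E1 (FF a n e K k p)) := by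
  have h := sgE1 (a := a) (e := e) (K := K) (k := k) hp 0
  simp only [Polynomial.eval_sub, Polynomial.eval_mul, Polynomial.eval_C, Polynomial.eval_X, hp0,
    mul_zero, zero_mul, sub_zero, map_zero, zero_add] at h
  obtain ⟨c2, hc2⟩ : ∃ c2, c2 = (Polynomial.derivative p).eval 0 := ⟨_, rfl⟩
  rw [← hc2] at h hp1
  obtain ⟨j, hj⟩ : ∃ j, e = n + 1 + (j + 1) := ⟨e - n - 2, by omega⟩
  have ha0 : a ≠ 0 := by omega
  rcases K with _ | K
  · refine ord_of (W := C ((e : ℂ) + 1 + ((k : ℂ) + 1)) * X 0 * X 2 ^ (j + 1) - C c2 * X 0 ^ a)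
      ?_ ?_
    · rw [h]
      have hk : k = e := by omega
      have e1 : (X 2 : S) ^ e = X 2 ^ (n + 1) * X 2 ^ (j + 1) := by rw [← pow_add, ← hj]
      simp only [Nat.cast_zero, zero_mul, pow_zero, mul_one, map_zero, zero_add, pow_one, sub_zero]
      rw [hk, e1]
      simp only [map_add, map_one]
      ring
    · simpa [ha0] using hp1
  · rcases K with _ | K
    · refine ord_of (W := C (e : ℂ) * X 0 * X 2 ^ (j + 1) - C c2 * X 0 ^ a) ?_ ?_
      · rw [h]
        have e1 : (X 2 : S) ^ e = X 2 ^ (n + 1) * X 2 ^ (j + 1) := by rw [← pow_add, ← hj]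
        have e2 : (X 2 : S) ^ (0 + 1 + k + 1) = X 2 ^ (n + 1) * X 2 ^ (j + 1) := by
          rw [← pow_add]; congr 1; omega
        rw [e2, e1]
        simp
        ring
      · simpa [ha0] using hp1
    · refine ord_of (W := C ((e : ℂ) + 1) * X 0 * X 2 ^ (j + 1) - C c2 * X 0 ^ a) ?_ ?_
      · rw [h]
        have e1 : (X 2 : S) ^ e = X 2 ^ (n + 1) * X 2 ^ (j + 1) := by rw [← pow_add, ← hj]
        rw [e1]
        simp
        ring
      · simpa [ha0] using hp1

theorem pp_zero_one (r t : ℕ) :
    (pp 1 r t).eval 0 = 0 ∧ (Polynomial.derivative (pp 1 r t)).eval 0 ≠ 0 := by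
  unfold pp
  constructor
  · simp
  · rw [pow_one, mul_assoc, Polynomial.derivative_mul, Polynomial.derivative_X]
    have h1 : (hh t).eval 0 ≠ 0 := by
      rw [hh_eval]
      rcases t with _ | t
      · norm_num
      · simp
    simpa using h1

/-- **FAB** -/
theorem fab (hK : StmKEY) : StmFAB := by
  intro e m he hF
  obtain ⟨g, a, r, s, K, hag, ha, hs, hg, hag', hKa, hKe, hm⟩ := hF
  obtain ⟨b, hb⟩ : ∃ b, b = 1 := ⟨1, rfl⟩
  have hba : b ≠ a := by omega
  obtain ⟨t, rfl⟩ : ∃ t, s = t + 1 := ⟨s - 1, by omega⟩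
  obtain ⟨n, rfl⟩ : ∃ n, g = n + 1 := ⟨g - 1, by omega⟩
  obtain ⟨k, hk⟩ : ∃ k, e = k + 2 * K := ⟨e - 2 * K, by omega⟩
  have hen : e = a + n := by omega
  have hn : n + 1 = b + (r + 1) + t := by omega
  obtain ⟨p, hp⟩ : ∃ p, p = pp b r t := ⟨_, rfl⟩
  have hpd : p.natDegree ≤ n + 1 := by rw [hp, hn]; exact pp_deg b r t
  obtain ⟨F, hF⟩ : ∃ F, F = FF a n e K k p := ⟨_, rfl⟩
  obtain ⟨hRd, hR0⟩ := RR_deg (a := a) (b := b) (r := r) (t := t) (by omega)
  obtain ⟨R, hR⟩ : ∃ R, R = RR a b r t := ⟨_, rfl⟩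
  rw [← hR] at hRd hR0
  have hsp : R.Splits := IsAlgClosed.splits R
  have hcard : R.roots.card = t + 1 := by
    rw [← hRd]
    exact hsp.natDegree_eq_card_roots.symm
  obtain ⟨c, hc⟩ : ∃ c, c = R.leadingCoeff := ⟨_, rfl⟩
  have hc0 : c ≠ 0 := by rw [hc]; exact Polynomial.leadingCoeff_ne_zero.2 hR0
  have hRprod : R = Polynomial.C c * (R.roots.toList.map fun ρ => Polynomial.X - Polynomial.C ρ).prod := by
    have h1 := hsp.eq_prod_roots
    rw [← Multiset.prod_coe, ← Multiset.map_coe, Multiset.coe_toList, hc]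
    exact h1
  set rs : List ℂ := List.replicate b 0 ++ List.replicate r 1 ++ R.roots.toList with hrs
  have hlen : rs.length = n + 1 := by
    rw [hrs, List.length_append, List.length_append, List.length_replicate, List.length_replicate,
      Multiset.length_toList, hcard]
    omega
  have hprod : Polynomial.C (a : ℂ) * p - Polynomial.X * Polynomial.derivative p =
      Polynomial.C c * (rs.map fun ρ => Polynomial.X - Polynomial.C ρ).prod := by
    rw [hp, key_id, ← hR, hrs, List.map_append, List.map_append, List.prod_append,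
      List.prod_append, List.map_replicate, List.map_replicate, List.prod_replicate,
      List.prod_replicate, Polynomial.C_0, Polynomial.C_1, sub_zero]
    conv_lhs => rw [hRprod]
    ring
  obtain ⟨hom1, hom2⟩ := hom_prod rs
  rw [hlen] at hom1 hom2
  have hd1 : (Polynomial.derivative p).natDegree ≤ n :=
    (Polynomial.natDegree_derivative_le p).trans (by omega)
  have hE0 : E0 F = C c * X 0 ^ a * (rs.map L).prod := by
    rw [← hom1, hF]
    unfold E0
    rw [pd0, pd1]
    apply ext_of_eval
    intro x hx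
    simp only [map_sub, map_mul, map_add, map_pow, eval_X, eval_C, eval_hom hpd x hx,
      eval_hom hd1 x hx, eval_hom hom2 x hx]
    have h1 := congrArg (Polynomial.eval (x 1 / x 2)) hprod
    simp only [Polynomial.eval_sub, Polynomial.eval_mul, Polynomial.eval_C,
      Polynomial.eval_X] at h1
    have h2 : x 0 ^ a = x 0 * x 0 ^ (a - 1) := by
      rw [← pow_succ']
      congr 1
      omega
    have h3 : x 1 = x 1 / x 2 * x 2 := by field_simp
    obtain ⟨τ, hτ⟩ : ∃ τ, τ = x 1 / x 2 := ⟨_, rfl⟩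
    rw [← hτ] at h1 h3 ⊢
    rw [h3, h2, pow_succ]
    linear_combination (x 0 * x 0 ^ (a - 1) * x 2 ^ n * x 2) * h1
  have hmem : ∀ ρ ∈ rs, (ρ = 0) ∨ (ρ = 1 ∧ 1 ≤ r) ∨
      (ρ ≠ 0 ∧ ρ ≠ 1 ∧ R.eval ρ = 0) := by
    intro ρ hρ
    rw [hrs, List.mem_append, List.mem_append, List.mem_replicate, List.mem_replicate,
      Multiset.mem_toList] at hρ
    rcases hρ with (⟨h1, h2⟩ | ⟨h1, h2⟩) | h1
    · left; exact h2
    · right; left; exact ⟨h2, by omega⟩
    · right; right
      have h2 := (Polynomial.mem_roots hR0).1 h1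
      have h3 : R.eval ρ = 0 := h2
      rw [hR] at h3
      obtain ⟨h4, h5, -⟩ := root_facts hba h3
      exact ⟨h4, h5, h2⟩
  have hord : ∀ ρ ∈ rs, OrdIs ρ ((fun ρ : ℂ => if ρ = 0 then n + 1 else if ρ = 1 then e - K
      else e - max a K) ρ) (E1 F) := by
    intro ρ hρ
    rw [hF]
    rcases hmem ρ hρ with h1 | ⟨h1, h2⟩ | ⟨h1, h2, h3⟩
    · rw [h1]
      simp only [if_true]
      obtain ⟨h3, h4⟩ := pp_zero_one r t
      rw [← hb, ← hp] at h3 h4
      exact ord0b hpd hen ha hk h3 h4
    · rw [h1]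
      simp only [one_ne_zero, if_false, if_true]
      obtain ⟨h3, h4⟩ := pp_one (b := b) (t := t) h2
      rw [← hp] at h3 h4
      exact ord1 hpd hk h3 h4
    · simp only [h1, h2, if_false]
      refine ordr hpd hen hk hKa h1 ?_
      have h4 : (a : ℂ) * p.eval ρ - ρ * (Polynomial.derivative p).eval ρ = 0 := by
        have h5 := congrArg (Polynomial.eval ρ) (key_id a b r t)
        rw [← hp, ← hR] at h5
        simp only [Polynomial.eval_sub, Polynomial.eval_mul, Polynomial.eval_C,
          Polynomial.eval_X, h3, mul_zero] at h5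
        exact h5
      simp only [Polynomial.eval_sub, Polynomial.eval_mul, Polynomial.eval_C, Polynomial.eval_X]
      have h6 : ((n : ℂ) + 1) * p.eval ρ - ρ * (Polynomial.derivative p).eval ρ =
          ((n : ℂ) + 1 - a) * p.eval ρ := by linear_combination h4
      rw [h6]
      refine mul_ne_zero ?_ ?_
      · rw [sub_ne_zero]
        exact_mod_cast hag'.symm
      · rw [hR] at h3
        obtain ⟨-, -, h7⟩ := root_facts hba h3
        rw [hp]
        unfold pp
        simp only [Polynomial.eval_mul, Polynomial.eval_pow, Polynomial.eval_sub,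
          Polynomial.eval_X, Polynomial.eval_one]
        exact mul_ne_zero (mul_ne_zero (pow_ne_zero _ h1) (pow_ne_zero _ (sub_ne_zero.2 h2))) h7
  have hX : ¬ X 0 ∣ E2 F := by
    rintro ⟨Q, hQ⟩
    have h1 := congrArg (eval ![0, 1, 1]) hQ
    rw [hF] at h1
    unfold E2 at h1
    rw [pd0, pd2] at h1
    have h2 : eval ![0, 1, 1] (hom (n + 1) p) = 0 := by
      rw [eval_hom hpd _ (by simp)]
      have := pp_one' b r t
      rw [← hp] at this
      simp [this]
    simp only [map_sub, map_mul, map_add, map_pow, eval_X, eval_C, h2] at h1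
    have ha0 : a ≠ 0 := by omega
    rcases K with _ | K
    · simp [ha0] at h1
      have : (((e + 1 + (k + 1) : ℕ)) : ℂ) ≠ 0 := by
        exact_mod_cast (by omega : e + 1 + (k + 1) ≠ 0)
      apply this
      push_cast
      exact h1
    · rcases K with _ | K
      · simp [ha0] at h1
        omega
      · simp [ha0] at h1
        have : (((e + 1 : ℕ)) : ℂ) ≠ 0 := by exact_mod_cast (by omega : e + 1 ≠ 0)
        apply this
        push_cast
        exact h1
  have hfin := hK (e + 1) F c a rs (fun ρ : ℂ => if ρ = 0 then n + 1 else if ρ = 1 then e - K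
      else e - max a K) (by rw [hF]; exact FF_homog hen hk p) hc0 hE0 hord hX
  have hsum : (rs.map (fun ρ : ℂ => if ρ = 0 then n + 1 else if ρ = 1 then e - K
      else e - max a K)).sum = m := by
    have h1 : (R.roots.toList.map (fun ρ : ℂ => if ρ = 0 then n + 1 else if ρ = 1 then e - K
      else e - max a K)) = List.replicate (t + 1) (e - max a K) := by
      rw [List.eq_replicate_iff]
      refine ⟨by rw [List.length_map, Multiset.length_toList, hcard], ?_⟩
      intro y hy
      obtain ⟨ρ, hρ, rfl⟩ := List.mem_map.1 hy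
      rw [Multiset.mem_toList] at hρ
      have h3 : R.eval ρ = 0 := (Polynomial.mem_roots hR0).1 hρ
      rw [hR] at h3
      obtain ⟨h4, h5, -⟩ := root_facts hba h3
      simp [h4, h5]
    rw [hrs, List.map_append, List.map_append, List.sum_append, List.sum_append, h1,
      List.map_replicate, List.map_replicate, List.sum_replicate, List.sum_replicate,
      List.sum_replicate]
    simp only [if_true, one_ne_zero, if_false, smul_eq_mul]
    have hmax : max a K ≤ e := by
      rw [max_le_iff]
      constructor <;> omega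
    have hKe' : K ≤ e := by omega
    obtain ⟨x, hx⟩ := Nat.exists_eq_add_of_le hmax
    obtain ⟨y, hy⟩ := Nat.exists_eq_add_of_le hKe'
    have e1 : e - max a K = x := by omega
    have e2 : e - K = y := by omega
    rw [e1, e2]
    obtain ⟨M, hM⟩ : ∃ M, M = max a K := ⟨_, rfl⟩
    rw [← hM] at hx hm
    have h5 : m + r * K + (t + 1) * M + (a - 1) = e + r * e + (t + 1) * e := by
      rw [hm, ← hg]; ring
    have h6 : (t + 1) * e = (t + 1) * M + (t + 1) * x := by
      rw [← Nat.mul_add, ← hx]
    have h7 : r * e = r * K + r * y := by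
      rw [← Nat.mul_add, ← hy]
    rw [hb, one_mul]
    omega
  rw [hsum] at hfin
  exact hfin

end Pool.Agent.T6.H61.EG
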